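import Pool.Agent.ZPU.Stmts

/-!
Row PHI of squad ZPU: the truncated logarithm in characteristic `p`.
-/

set_option autoImplicit false

namespace Pool.Agent.ZPU.H60

open Polynomial Pool.Agent.ZPT Pool.Agent.ZP3 Pool.Agent.ZPU

noncomputable section

theorem phi : PHIStmt := by
  intro p hp h3 k _ _ u b
  have key : derivative (u * b * L1 p (fun j => C (lc k j)) u b) =
      wr u b * ∑ j ∈ Finset.range (p - 1), (-u) ^ j * b ^ (p - 1 - 1 - j) := by
    unfold L1
    rw [Finset.mul_sum, derivative_sum, Finset.mul_sum]
    apply Finset.sum_congr rfl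
    intro j hj
    have hj' : j < p - 1 := Finset.mem_range.1 hj
    have h1 : ((j + 1 : ℕ) : k) ≠ 0 := by
      intro h
      rw [CharP.cast_eq_zero_iff k p] at h
      exact absurd (Nat.le_of_dvd (by omega) h) (by omega)
    obtain ⟨m, hm⟩ : ∃ m, p - 2 - j = m := ⟨_, rfl⟩
    have hm' : p - 1 - 1 - j = m := by omega
    have hcast : ((m : k) + 1) = - ((j : k) + 1) := by
      have h0 : ((m + 1 + (j + 1) : ℕ) : k) = 0 := by
        rw [CharP.cast_eq_zero_iff k p]
        have : m + 1 + (j + 1) = p := by omega
        rw [this]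
      push_cast at h0
      linear_combination h0
    have h1' : ((j : k) + 1) ≠ 0 := by
      push_cast at h1
      exact h1
    have c1 : C (lc k j) * C ((j : k) + 1) = (-1 : k[X]) ^ j := by
      rw [← C_mul]
      have : lc k j * ((j : k) + 1) = (-1) ^ j := by
        unfold lc
        push_cast
        field_simp
      rw [this]
      simp
    have c2 : C (lc k j) * C ((m : k) + 1) = - (-1 : k[X]) ^ j := by
      rw [hcast, C_neg, mul_neg, c1]
    rw [hm, hm']
    have e : u * b * (C (lc k j) * u ^ j * b ^ m) =
        C (lc k j) * (u ^ (j + 1) * b ^ (m + 1)) := by ring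
    rw [e, derivative_C_mul, derivative_mul, derivative_pow_succ, derivative_pow_succ]
    unfold wr
    rw [neg_pow u j]
    linear_combination (u ^ j * derivative u * b ^ (m + 1)) * c1 +
      (u ^ (j + 1) * b ^ m * derivative b) * c2
  refine ⟨?_, ?_⟩
  · rw [key]
    have hg : (∑ j ∈ Finset.range (p - 1), (-u) ^ j * b ^ (p - 1 - 1 - j)) * (-u - b) =
        (-u) ^ (p - 1) - b ^ (p - 1) := (Commute.all (-u) b).geom_sum₂_mul (p - 1)
    have hodd : (-u) ^ (p - 1) = u ^ (p - 1) := by
      apply Even.neg_pow
      rcases hp.eq_two_or_odd with h | h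
      · omega
      · exact ⟨(p - 1) / 2, by omega⟩
    rw [hodd] at hg
    linear_combination (-(wr u b)) * hg
  · intro hu hb
    have hL : (L1 p (fun j => C (lc k j)) u b).coeff 0 = (b.coeff 0) ^ (p - 2) := by
      unfold L1
      rw [finset_sum_coeff, Finset.sum_eq_single 0]
      · simp [lc, coeff_zero_eq_eval_zero]
      · intro j _ hj
        rw [coeff_zero_eq_eval_zero] at hu ⊢
        simp [hu, hj]
      · intro h
        exfalso
        apply h
        rw [Finset.mem_range]
        omega
    rw [hL]
    exact pow_ne_zero _ hb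

end

end Pool.Agent.ZPU.H60
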